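import Pool.Agent.H180.PG.Final
import Pool.Agent.Q100.PG.Card
import Pool.Agent.Q184.PG.NodeSmall
import Pool.Agent.Q58.PG.NodeTop
import Pool.Agent.Q277.PG.Sep
import Pool.Agent.Q29.PG.Signs
import Pool.Agent.Q181.PG.Gen
import Pool.Agent.Q142.PG.Big
import Pool.Agent.Q208.PG.Neg
import Pool.Agent.Q142.PG.Lim
import Pool.Agent.Q238.PG.RESTR
import Pool.Agent.Q217.PG.L1

/-!
# Projectional generators which cannot be strengthened

The answer to Q1 is negative. Let `κ` be a cardinal with `κ ^ ℵ₀ = κ < κ ^ ℵ₁` (for example
`ℶ_{ω₁}`) and let `T` be the tree of all functions from an initial segment of `ω₁` (all of `ω₁`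
allowed) to `κ`, ordered by extension; `X = ℓ₁(T)`. Let `Y` be the norm closed span, in
`X* = ℓ_∞(T)`, of the indicator functions `χ_t` of the sets `{s | s ≤ t}`, and let `Y'` be the space
of the functions `f` on `T` for which there is a countable set `D`, closed under meets, such that
`f t = f d` for the least element `d` of `D` above `t`, and `f t = 0` if there is none.

* For every subspace `Z` between `Y` and `Y'` there is a projectional generator with domain `Z`:
  for `f` let `Φ f` be the set of the unit vectors at the points `d ∈ D` below which (weakly) there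
  is a point where `f` is not zero above `d`. If `A ⊆ Z` has a linear closure then the set
  `⋃ f ∈ A, Φ f` corresponds to a set which is closed under meets (consider elements of `A` near
  to generic combinations of two elements), and the elements of the weak-star closure of `A` are
  determined by their values on this set.
* If `Φ f` is a countable set for all `f ∈ Z` then the strengthened condition fails: there are more
  than `κ` top nodes `b` and only `κ` countable sets of lower nodes; so there are infinite sets `A₁`,
  `A₂` of top nodes for which the supports of the vectors in `Φ χ_b` have the same lower nodes, on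
  which all these `χ_b` agree, and a node `t` below all `b ∈ A₁` and not below any `b ∈ A₂`. For limits
  `g₁`, `g₂` of the functionals `χ_b` for `b ∈ A₁` and `b ∈ A₂` the difference `g₁ - g₂` vanishes on the
  sets `Φ χ_b`, `b ∈ A₁ ∪ A₂`, and is not zero at `t`.
-/

namespace Pool.Agent.Results.MP_132384_an.TreeCounterexample

open Pool.Agent.H180.PG

section defs

variable {X : Type} [NormedAddCommGroup X] [NormedSpace ℝ X]

/-- The subspace `Y` of the dual contains the weak-star closures of its countable subsets. -/
def CountablyClosed (Y : Submodule ℝ (StrongDual ℝ X)) : Prop :=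
  ∀ C : Set (StrongDual ℝ X), C ⊆ Y → C.Countable → wcl C ⊆ Y

/-- The subspace `Y` of the dual is norm closed. -/
def NormClosed (Y : Submodule ℝ (StrongDual ℝ X)) : Prop := IsClosed (Y : Set (StrongDual ℝ X))

/-- The space admits a projectional generator with domain `Z`. -/
def HasGenerator (Z : Submodule ℝ (StrongDual ℝ X)) : Prop :=
  ∃ Φ : StrongDual ℝ X → Set X, IsProjGen Z Φ

/-- For each choice of countable sets `Φ f`, `f ∈ Z`, the strengthened condition fails: for some
`M ⊆ Z` a nonzero functional in the weak-star closed span of `M` vanishes on `Φ(M)`. -/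
def NeverStrengthened (Z : Submodule ℝ (StrongDual ℝ X)) : Prop :=
  ∀ Φ : StrongDual ℝ X → Set X, (∀ f ∈ Z, (Φ f).Countable) →
    ∃ M : Set (StrongDual ℝ X), M ⊆ Z ∧
      ∃ g ∈ wcl (Submodule.span ℝ M : Set (StrongDual ℝ X)), g ∈ annih (img Φ M) ∧ g ≠ 0

/-- `Z` lies between `Y` and `Y'`. -/
def Between (Y Y' Z : Submodule ℝ (StrongDual ℝ X)) : Prop := Y ≤ Z ∧ Z ≤ Y'

end defs

/-- **Negative answer to Q1.** There are a real Banach space `X` and subspaces `Y ≤ Y'` of its dual,
`Y` norm closed and `Y'` closed under weak-star closures of countable sets, such that for every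
subspace `Z` between them `X` admits a projectional generator with domain `Z`, and for every map `Φ`
from `Z` to the countable subsets of `X` (projectional generator or not) the strengthened
annihilator condition fails for some `M ⊆ Z`. -/
theorem result :
    ∃ (X : Type) (_ : NormedAddCommGroup X) (_ : NormedSpace ℝ X) (_ : CompleteSpace X)
      (Y Y' : Submodule ℝ (StrongDual ℝ X)), Between Y Y' Y ∧ NormClosed Y ∧ CountablyClosed Y' ∧
      ∀ Z, Between Y Y' Z → HasGenerator Z ∧ NeverStrengthened Z := by
  obtain ⟨X, i1, i2, i3, Y, Y', h1, h2, h3, h4⟩ := final Pool.Agent.Q100.PG.card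
    Pool.Agent.Q184.PG.nodeSmall Pool.Agent.Q58.PG.nodeTop Pool.Agent.Q238.PG.restr
    Pool.Agent.Q277.PG.sep Pool.Agent.Q217.PG.l1 Pool.Agent.Q29.PG.signs Pool.Agent.Q181.PG.gen
    Pool.Agent.Q142.PG.big Pool.Agent.Q208.PG.neg Pool.Agent.Q142.PG.lim
  refine ⟨X, i1, i2, i3, Y, Y', ⟨le_rfl, h1⟩, h2, h3, fun Z hZ => ⟨(h4 Z hZ.1 hZ.2).1,
    fun Φ hΦ => ?_⟩⟩
  by_contra hcon
  push Not at hcon
  refine (h4 Z hZ.1 hZ.2).2 Φ hΦ fun M hM => ?_
  refine Set.eq_singleton_iff_unique_mem.mpr ⟨⟨?_, ?_⟩, ?_⟩
  · exact closure_subset_wcl _ (subset_closure (Submodule.zero_mem _))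
  · exact fun x _ => rfl
  · rintro g ⟨hg, hg'⟩
    exact hcon M hM g hg hg'

end Pool.Agent.Results.MP_132384_an.TreeCounterexample
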